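import Pool.Agent.H445.EllG

/-!
# The numbers of points of an elliptic curve with or without the quasi-periods
-/

set_option autoImplicit false

open Set Module
open Pool.Agent.TH813.Rel (DF MK subset_cl rk_le_of_subset_cl cl_of_base)
open Pool.Agent.Y685
open Pool.Agent.Y776 (Tf lg lgL Tf_lin lg_lin ET ET_finite TfL TfL_apply)
open Pool.Agent.W245.EB Pool.Agent.TH813.Ell H667R3
open scoped PeriodPair

noncomputable section

namespace Pool.Agent.H445.RE

variable {L : PeriodPair} {κ : ℂ} {K C : IntermediateField ℚ ℂ} {n s : ℕ}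

/-- the numbers attached to finitely many points, with (`true`) or without (`false`) the values of `ζ` -/
def EB (L : PeriodPair) : Bool → {n : ℕ} → (Fin n → ℂ) → Set ℂ
  | true, _, p => EP L p
  | false, _, p => range p ∪ range (fun i => ℘[L] (p i))

/-- the bound for one point -/
def rb : Bool → ℕ
  | true => 2
  | false => 1

theorem EB_finite (r : Bool) (p : Fin n → ℂ) : (EB L r p).Finite := by
  cases r
  · exact (finite_range _).union (finite_range _)
  · exact EP_finite p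

theorem self_mem_EB (r : Bool) (p : Fin n → ℂ) (i : Fin n) : p i ∈ EB L r p := by
  cases r <;> exact Or.inl ⟨i, rfl⟩

theorem wp_mem_EB (r : Bool) (p : Fin n → ℂ) (i : Fin n) : ℘[L] (p i) ∈ EB L r p := by
  cases r
  · exact Or.inr ⟨i, rfl⟩
  · exact Or.inr (Or.inr ⟨i, rfl⟩)

theorem encard_range_le (f : Fin n → ℂ) : (range f).encard ≤ n := by
  rw [← image_univ]
  refine (encard_image_le _ _).trans ?_
  rw [encard_univ]
  simp

theorem encard_EB (r : Bool) (x : Fin n → ℂ) : (EB L r x).encard ≤ ((rb r + 1) * n : ℕ) := by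
  cases r
  · refine (encard_union_le _ _).trans ?_
    refine (add_le_add (encard_range_le _) (encard_range_le _)).trans ?_
    simp only [rb]
    exact_mod_cast (by omega : n + n ≤ (1 + 1) * n)
  · exact encard_EP x

theorem EB_append (r : Bool) {b : ℕ} (z : Fin n → ℂ) (x : Fin b → ℂ) :
    EB L r (Fin.append z x) = EB L r z ∪ EB L r x := by
  cases r
  · ext y
    simp only [EB, mem_union, mem_range]
    constructor
    · rintro (⟨i, rfl⟩ | ⟨i, rfl⟩)
      · refine Fin.addCases (fun i => ?_) (fun j => ?_) i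
        · exact Or.inl (Or.inl ⟨i, by rw [Fin.append_left]⟩)
        · exact Or.inr (Or.inl ⟨j, by rw [Fin.append_right]⟩)
      · refine Fin.addCases (fun i => ?_) (fun j => ?_) i
        · exact Or.inl (Or.inr ⟨i, by rw [Fin.append_left]⟩)
        · exact Or.inr (Or.inr ⟨j, by rw [Fin.append_right]⟩)
    · rintro ((⟨i, rfl⟩ | ⟨i, rfl⟩) | (⟨i, rfl⟩ | ⟨i, rfl⟩))
      · exact Or.inl ⟨Fin.castAdd b i, by rw [Fin.append_left]⟩
      · exact Or.inr ⟨Fin.castAdd b i, by rw [Fin.append_left]⟩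
      · exact Or.inl ⟨Fin.natAdd n i, by rw [Fin.append_right]⟩
      · exact Or.inr ⟨Fin.natAdd n i, by rw [Fin.append_right]⟩
  · exact EP_append z x

theorem EB_comp_subset (r : Bool) {n' : ℕ} (z : Fin n → ℂ) (σ : Fin n' → Fin n) :
    EB L r (fun i => z (σ i)) ⊆ EB L r z := by
  cases r
  · rintro _ (⟨i, rfl⟩ | ⟨i, rfl⟩)
    · exact Or.inl ⟨σ i, rfl⟩
    · exact Or.inr ⟨σ i, rfl⟩
  · exact EP_comp_subset z σ

/-- the numbers of a space of points -/
def NVb (L : PeriodPair) : Bool → Submodule (kL L) ℂ → Set ℂ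
  | true, V => NV L V
  | false, V => {x | ∃ v ∈ V, v ∉ L.lattice ∧ (x = v ∨ x = ℘[L] v)}

/-- the numbers of a space of points and of a space of exponents -/
def NWb (L : PeriodPair) (r : Bool) (V : Submodule (kL L) ℂ) (T : Submodule ℚ ℂ) : Set ℂ := EV T ∪ NVb L r V

/-- the points at which a derivation vanishes together with the form of the first kind -/
def KSq (hE : Eig L κ) {δ : Derivation ℚ ℂ ℂ} (h2 : δ L.g₂ = 0) (h3 : δ L.g₃ = 0) : Submodule (kL L) ℂ where
  carrier := {z | δ z = 0 ∧ om L δ z = 0}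
  add_mem' := by
    rintro u v ⟨a1, a2⟩ ⟨b1, b2⟩
    exact ⟨by rw [map_add, a1, b1, add_zero], by rw [om_add L δ h2 h3, a2, b2, add_zero]⟩
  zero_mem' := ⟨map_zero _, om_zero δ⟩
  smul_mem' := by
    rintro ⟨c, hc⟩ z ⟨a1, a2⟩
    have e0 : (⟨c, hc⟩ : kL L) • z = c * z := rfl
    rw [Set.mem_ofPred_eq, e0]
    exact ⟨by rw [D_mul, der_kL δ hc, a1]; ring, by rw [hE.om_mul δ h2 h3 c hc, a2, mul_zero]⟩

theorem NVb_killed (r : Bool) {δ : Derivation ℚ ℂ ℂ} (h2 : δ L.g₂ = 0) (h3 : δ L.g₃ = 0) {p : Fin n → ℂ}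
    (h : ∀ x ∈ EB L r p, δ x = 0) {x : ℂ} (hx : x ∈ NVb L r (Submodule.span (kL L) (range p))) : δ x = 0 := by
  cases r
  · obtain ⟨v, hv, hvL, hx⟩ := hx
    obtain ⟨κ, hE⟩ := exists_eig L
    have h1 : Submodule.span (kL L) (Set.range p) ≤ KSq hE h2 h3 := by
      rw [Submodule.span_le]
      rintro _ ⟨i, rfl⟩
      exact ⟨h _ (Or.inl ⟨i, rfl⟩), om_of_kill (h _ (Or.inr ⟨i, rfl⟩))⟩
    obtain ⟨a1, a2⟩ := h1 hv
    rcases hx with rfl | rfl
    · exact a1
    · exact (wp_killed h2 h3 a2 hvL).1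
  · exact NV_killed h2 h3 h hx

theorem NWb_subset_cl (r : Bool) (h2 : L.g₂ ∈ C) (h3 : L.g₃ ∈ C) (p : Fin n → ℂ) (t : Fin s → ℂ) :
    NWb L r (Submodule.span (kL L) (range p)) (Submodule.span ℚ (range t)) ⊆
      (MK C).closure (ET t ∪ EB L r p) := by
  intro x hx
  rw [← mem_clo_iff]
  intro δ hδ hS
  rcases hx with hx | hx
  · exact EV_killed (fun y hy => hS y (Or.inl hy)) hx
  · exact NVb_killed r (hδ _ h2) (hδ _ h3) (fun y hy => hS y (Or.inr hy)) hx

theorem EB_subset_NVb (r : Bool) {p : Fin n → ℂ} {V : Submodule (kL L) ℂ} (h : ∀ i, p i ∈ V)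
    (hL : ∀ i, p i ∉ L.lattice) : EB L r p ⊆ NVb L r V := by
  cases r
  · rintro _ (⟨i, rfl⟩ | ⟨i, rfl⟩)
    · exact ⟨p i, h i, hL i, Or.inl rfl⟩
    · exact ⟨p i, h i, hL i, Or.inr rfl⟩
  · exact EP_subset_NV h hL

theorem NWb_subset (r : Bool) {p : Fin n → ℂ} {t : Fin s → ℂ} {V : Submodule (kL L) ℂ}
    {T : Submodule ℚ ℂ} (hp : ∀ i, p i ∈ V) (hL : ∀ i, p i ∉ L.lattice) (ht : ∀ i, t i ∈ T) :
    ET t ∪ EB L r p ⊆ NWb L r V T :=
  union_subset_union (ET_subset_EV ht) (EB_subset_NVb r hp hL)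

theorem eRk_NWb (r : Bool) (h2 : L.g₂ ∈ C) (h3 : L.g₃ ∈ C) {p : Fin n → ℂ}
    (hL : ∀ i, p i ∉ L.lattice) (t : Fin s → ℂ) :
    (MK C).eRk (NWb L r (Submodule.span (kL L) (range p)) (Submodule.span ℚ (range t))) =
      (MK C).eRk (ET t ∪ EB L r p) :=
  le_antisymm (rk_le_of_subset_cl (NWb_subset_cl r h2 h3 p t))
    ((MK C).eRk_mono (NWb_subset r (fun i => Submodule.subset_span ⟨i, rfl⟩) hL
      fun i => Submodule.subset_span ⟨i, rfl⟩))

theorem eRk_nat (F : IntermediateField ℚ ℂ) {S : Set ℂ} (hS : S.Finite) : ∃ r : ℕ, (MK F).eRk S = r := by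
  have : (MK F).eRk S ≠ ⊤ := by
    rw [← lt_top_iff_ne_top]
    exact lt_of_le_of_lt ((MK _).eRk_le_encard _) hS.encard_lt_top
  exact ⟨_, (ENat.natCast_toNat this).symm⟩

/-- **Many compatible derivations give a large rank.** -/
theorem chainB (r : Bool) (hE : Eig L κ) (h2 : L.g₂ ∈ K) (h3 : L.g₃ ∈ K)
    {Δ : Submodule ℂ (Derivation ℚ ℂ ℂ)} (hΔ : Δ ≤ DF K) {p : Fin n → ℂ} {t : Fin s → ℂ}
    (hp : LinearIndependent (kL L) p) (hpL : ∀ i, p i ∉ L.lattice) (ht : LinearIndependent ℚ t)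
    (hC : ∀ D ∈ Δ, ∀ x ∈ Submodule.span (kL L) (range p), Cm1 L D x)
    (hTf : ∀ D ∈ Δ, ∀ x ∈ Submodule.span ℚ (range t), Tf D x = 0)
    (hDV : ∀ x ∈ Submodule.span (kL L) (range p), x ≠ 0 → ∃ D ∈ Δ, D x ≠ 0)
    (hDT : ∀ x ∈ Submodule.span ℚ (range t), x ≠ 0 → ∃ D ∈ Δ, D x ≠ 0) :
    ((rb r * n + s + finrank ℂ (Δ.map (eVT (Submodule.span (kL L) (range p)) (Submodule.span ℚ (range t)))) : ℕ)
      : ℕ∞) ≤ (MK K).eRk (ET t ∪ EB L r p) := by
  have hVf : FiniteDimensional (kL L) (Submodule.span (kL L) (range p)) :=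
    FiniteDimensional.span_of_finite (kL L) (finite_range p)
  have hTf' : FiniteDimensional ℚ (Submodule.span ℚ (range t)) := FiniteDimensional.span_of_finite ℚ (finite_range t)
  have hVn : finrank (kL L) (Submodule.span (kL L) (range p)) = n := by
    rw [finrank_span_eq_card hp, Fintype.card_fin]
  have hTn : finrank ℚ (Submodule.span ℚ (range t)) = s := by
    rw [finrank_span_eq_card ht, Fintype.card_fin]
  have h4 := chainM (L := L) (κ := κ) (K := K) hE h2 h3 (Δ := Δ) hΔ _ _ _ hVf hTf' rfl hC hTf hDV hDT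
  rw [eRk_NW h2 h3 hpL, hVn, hTn] at h4
  cases r
  · have h5 : (MK K).eRk (ET t ∪ EP L p) ≤ (MK K).eRk (ET t ∪ EB L false p) + n := by
      have h6 : ET t ∪ EP L p ⊆ (ET t ∪ EB L false p) ∪ range (fun i => zt L (p i)) := by
        rintro x (hx | hx | hx | hx)
        · exact Or.inl (Or.inl hx)
        · exact Or.inl (Or.inr (Or.inl hx))
        · exact Or.inr hx
        · exact Or.inl (Or.inr (Or.inr hx))
      refine ((MK K).eRk_mono h6).trans (((MK K).eRk_union_le_eRk_add_encard _ _).trans ?_)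
      gcongr
      exact encard_range_le _
    obtain ⟨r1, hr1⟩ := eRk_nat K ((ET_finite t).union (EB_finite (L := L) false p))
    rw [hr1] at h5 ⊢
    have h6 := h4.trans h5
    have h7 : 2 * n + s + finrank ℂ (Δ.map (eVT (Submodule.span (kL L) (range p)) (Submodule.span ℚ (range t)))) ≤
      r1 + n := by exact_mod_cast h6
    exact_mod_cast (by
      simp only [rb]
      omega : rb false * n + s +
      finrank ℂ (Δ.map (eVT (Submodule.span (kL L) (range p)) (Submodule.span ℚ (range t)))) ≤ r1)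
  · exact h4

end Pool.Agent.H445.RE
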