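import Pool.Agent.H445.RE.A

/-!
# Failures over a countable field, with independence modulo countable spaces
-/

set_option autoImplicit false

open Set Module MvPolynomial
open Pool.Agent.TH813.Rel (DF MK subset_cl rk_le_of_subset_cl cl_of_base exists_derF)
open Pool.Agent.Y685
open Pool.Agent.Y776 (Tf lg lgL Tf_lin lg_lin ET ET_finite TfL TfL_apply Good good_der good_union
  countable_bad exists_chain grC Grad)
open Pool.Agent.W245.EB Pool.Agent.TH813.Ell H667R3 Pool.Agent.Y119.CB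
open scoped PeriodPair NNReal ENNReal

noncomputable section

namespace Pool.Agent.H445.RE

variable {L : PeriodPair} {κ : ℂ} {K : Subfield ℂ} {n s m : ℕ} {r : Bool}

/-- `n` points and `s` exponents which miss the bound over the field `F` by at least `m` -/
structure FailE (L : PeriodPair) (r : Bool) (F : IntermediateField ℚ ℂ) (A : Submodule (kL L) ℂ)
    (B : Submodule ℚ ℂ) (n s m : ℕ) (z : Fin n → ℂ) (t : Fin s → ℂ) : Prop where
  off : ∀ i, z i ∉ L.lattice
  indP : IndP L A z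
  indE : IndE B t
  rk : (MK F).eRk (ET t ∪ EB L r z) + m ≤ ((s + rb r * n : ℕ) : ℕ∞)

variable {F : IntermediateField ℚ ℂ} {A : Submodule (kL L) ℂ} {B : Submodule ℚ ℂ}

/-- **Reduction of a failure to the closed field** -/
theorem FailE.reduce {z : Fin n → ℂ} {t : Fin s → ℂ} (h : FailE L r F A B n s m z t) (hK : Fld K) (hL : L ∈ LK K)
    (hFK : F ≤ IFd K) (hg2 : L.g₂ ∈ F) (hg3 : L.g₃ ∈ F) :
    (∃ (n₀ s₀ : ℕ) (z₀ : Fin n₀ → ℂ) (t₀ : Fin s₀ → ℂ), n₀ ≤ n ∧ s₀ ≤ s ∧
      finrank ℂ (Tan PF' K (Pf' L (Fin.append z t))) + (n₀ + s₀) ≤ n + s ∧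
      FailE L r F A B n₀ s₀ (m + finrank ℂ (Tan PF' K (Pf' L (Fin.append z t)))) z₀ t₀) ∧
    (finrank ℂ (Tan PF' K (Pf' L (Fin.append z t))) = 0 → (∀ j, z j ∈ K) ∧ ∀ j, t j ∈ K) := by
  classical
  obtain ⟨κ, hE⟩ := exists_eig L
  have hL2 := hK.g₂ L hL
  have hL3 := hK.g₃ L hL
  set V : Submodule (kL L) ℂ := Submodule.span (kL L) (range z) with hV
  set T : Submodule ℚ ℂ := Submodule.span ℚ (range t) with hT
  have hVf : FiniteDimensional (kL L) V := FiniteDimensional.span_of_finite (kL L) (finite_range z)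
  have hTf : FiniteDimensional ℚ T := FiniteDimensional.span_of_finite ℚ (finite_range t)
  have hVn : finrank (kL L) V = n := by
    rw [hV, finrank_span_eq_card h.indP.li, Fintype.card_fin]
  have hTn : finrank ℚ T = s := by
    rw [hT, finrank_span_eq_card h.indE.li, Fintype.card_fin]
  -- the field as a space of points
  let KP : Submodule (kL L) ℂ :=
    { carrier := (K : Set ℂ)
      add_mem' := fun {a b} ha hb => K.add_mem ha hb
      zero_mem' := K.zero_mem
      smul_mem' := fun a x hx => K.mul_mem (kL_mem hL a.2) hx }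
  have hV₀V : V ⊓ KP ≤ V := inf_le_left
  have hT₀T : T ⊓ KQ K ≤ T := inf_le_left
  set V₀ : Submodule (kL L) ℂ := V ⊓ KP with hV₀
  set T₀ : Submodule ℚ ℂ := T ⊓ KQ K with hT₀
  have hV₀f : FiniteDimensional (kL L) V₀ := Submodule.finiteDimensional_of_le hV₀V
  have hT₀f : FiniteDimensional ℚ T₀ := Submodule.finiteDimensional_of_le hT₀T
  obtain ⟨V₁, hV₁V, hdjV, hcardV, hsupV⟩ := exists_rel_complk hV₀V
  obtain ⟨T₁, hT₁T, hdjT, hcardT, hsupT⟩ := exists_rel_complk hT₀T
  have hV₁f : FiniteDimensional (kL L) V₁ := Submodule.finiteDimensional_of_le hV₁V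
  have hT₁f : FiniteDimensional ℚ T₁ := Submodule.finiteDimensional_of_le hT₁T
  rw [hVn] at hcardV
  rw [hTn] at hcardT
  have hdV : ∀ x ∈ V₁, x ≠ 0 → x ∉ K := fun x hx hx0 hxK => hx0 (hdjV x hx ⟨hV₁V hx, hxK⟩)
  have hdT : ∀ x ∈ T₁, x ≠ 0 → x ∉ K := fun x hx hx0 hxK => hx0 (hdjT x hx ⟨hT₁T hx, hxK⟩)
  -- bases
  obtain ⟨z₀, hz₀, hsz₀, hLz₀⟩ := exists_tupleK V₀
  obtain ⟨z₁, hz₁, hsz₁, hLz₁⟩ := exists_tupleK V₁
  obtain ⟨t₀, ht₀, hst₀⟩ := exists_tuple T₀
  obtain ⟨t₁, ht₁, hst₁⟩ := exists_tuple T₁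
  have hz₀V : ∀ i, z₀ i ∈ V₀ := fun i => hsz₀ ▸ Submodule.subset_span ⟨i, rfl⟩
  have hz₁V : ∀ i, z₁ i ∈ V₁ := fun i => hsz₁ ▸ Submodule.subset_span ⟨i, rfl⟩
  have ht₀V : ∀ i, t₀ i ∈ T₀ := fun i => hst₀ ▸ Submodule.subset_span ⟨i, rfl⟩
  have ht₁V : ∀ i, t₁ i ∈ T₁ := fun i => hst₁ ▸ Submodule.subset_span ⟨i, rfl⟩
  -- the compatible derivations
  set Δ := CF K L z t with hΔ
  have hch := chainB (L := L) (κ := κ) (K := IFd K) r hE hL2 hL3 (Δ := Δ) (CF_le z t) hz₁ hLz₁ ht₁
    (by rw [hsz₁]; exact fun D hD x hx => (CF_span hE hL2 hL3 hD).1 x (hV₁V hx))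
    (by rw [hst₁]; exact fun D hD x hx => (CF_span hE hL2 hL3 hD).2 x (hT₁T hx))
    (by rw [hsz₁]; exact fun x hx hx0 => Fld.moves_pt hK hL t h.off (hdV x hx hx0))
    (by rw [hst₁]; exact fun x hx hx0 => Fld.moves_ex hK hL t h.off (hdT x hx hx0))
  rw [hsz₁, hst₁] at hch
  -- the dimension of the directions
  set d := finrank ℂ (Tan PF' K (Pf' L (Fin.append z t))) with hd
  have hd1 : d ≤ finrank ℂ (Δ.map (eVT V₁ T₁)) := by
    let ev : Derivation ℚ ℂ ℂ →ₗ[ℂ] (Fin (n + s) → ℂ) :=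
      { toFun := fun D j => D (Fin.append z t j)
        map_add' := fun _ _ => rfl
        map_smul' := fun _ _ => rfl }
    have h4 : Tan PF' K (Pf' L (Fin.append z t)) ≤ Δ.map ev := by
      intro v hv
      obtain ⟨D, hD, h5⟩ := Tan_CF hK hL hv
      exact ⟨D, hD, funext h5⟩
    refine (Submodule.finrank_mono h4).trans (finrank_map_le Δ _ _ ?_)
    intro D hD h0
    obtain ⟨h5, h6⟩ := eVT_eq_zero.1 h0
    have h7 : ∀ x ∈ V, D x = 0 := by
      intro x hx
      obtain ⟨a, ha, b, hb, rfl⟩ := Submodule.mem_sup.1 (hsupV hx)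
      rw [map_add, hD.1 _ ha.2, h5 _ hb, add_zero]
    have h8 : ∀ x ∈ T, D x = 0 := by
      intro x hx
      obtain ⟨a, ha, b, hb, rfl⟩ := Submodule.mem_sup.1 (hsupT hx)
      rw [map_add, hD.1 _ ha.2, h6 _ hb, add_zero]
    funext j
    change D (Fin.append z t j) = 0
    induction j using Fin.addCases with
    | left i => rw [Fin.append_left]; exact h7 _ (Submodule.subset_span ⟨i, rfl⟩)
    | right l => rw [Fin.append_right]; exact h8 _ (Submodule.subset_span ⟨l, rfl⟩)
  have hd2 := finrank_eVT_le V₁ T₁ Δ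
  -- the rank
  have hr2 := eRk_NWb (C := F) r hg2 hg3 h.off t
  rw [← hV, ← hT] at hr2
  have hr3 : (MK F).eRk ((ET t₀ ∪ EB L r z₀) ∪ (ET t₁ ∪ EB L r z₁)) ≤
      (MK F).eRk (ET t ∪ EB L r z) := by
    rw [← hr2]
    apply (MK _).eRk_mono
    exact union_subset (NWb_subset r (fun i => hV₀V (hz₀V i)) hLz₀ fun i => hT₀T (ht₀V i))
      (NWb_subset r (fun i => hV₁V (hz₁V i)) hLz₁ fun i => hT₁T (ht₁V i))
  have hf0 : (ET t₀ ∪ EB L r z₀).Finite := (ET_finite t₀).union (EB_finite r z₀)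
  have hf1 : (ET t₁ ∪ EB L r z₁).Finite := (ET_finite t₁).union (EB_finite r z₁)
  have hf : (ET t ∪ EB L r z).Finite := (ET_finite t).union (EB_finite r z)
  rw [rank_add hf0 hf1] at hr3
  have hr4 : clo F (ET t₀ ∪ EB L r z₀) ≤ IFd K := by
    apply clo_le_IFd hK hFK
    rintro x ((⟨i, rfl⟩ | ⟨i, rfl⟩) | hx)
    · exact (ht₀V i).2
    · exact hK.exp _ (ht₀V i).2
    · cases r
      · rcases hx with ⟨i, rfl⟩ | ⟨i, rfl⟩
        · exact (hz₀V i).2
        · exact hK.wp L hL _ (hz₀V i).2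
      · rcases hx with ⟨i, rfl⟩ | ⟨i, rfl⟩ | ⟨i, rfl⟩
        · exact (hz₀V i).2
        · exact hK.zt L hL _ (hz₀V i).2
        · exact hK.wp L hL _ (hz₀V i).2
  have hr5 := rank_mono_base hr4 hf1
  have hrk := h.rk
  -- the ranks as numbers
  obtain ⟨q, hr⟩ := eRk_nat F hf0
  obtain ⟨r1, hr1'⟩ := eRk_nat (IFd K) hf1
  obtain ⟨r2, hr2'⟩ := eRk_nat (clo F (ET t₀ ∪ EB L r z₀)) hf1
  obtain ⟨r3, hr3'⟩ := eRk_nat F hf
  rw [hr1'] at hch
  rw [hr1', hr2'] at hr5
  rw [hr, hr2', hr3'] at hr3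
  rw [hr3'] at hrk
  have e1 : rb r * finrank (kL L) V₁ + finrank ℚ T₁ + finrank ℂ (Δ.map (eVT V₁ T₁)) ≤ r1 := by
    exact_mod_cast hch
  have e2 : r1 ≤ r2 := by exact_mod_cast hr5
  have e3 : q + r2 ≤ r3 := by exact_mod_cast hr3
  have e4 : r3 + m ≤ s + rb r * n := by exact_mod_cast hrk
  have e5 : rb r * n = rb r * finrank (kL L) V₀ + rb r * finrank (kL L) V₁ := by
    rw [← mul_add, hcardV]
  refine ⟨⟨finrank (kL L) V₀, finrank ℚ T₀, z₀, t₀, by omega, by omega, by omega, hLz₀,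
    h.indP.sub hz₀ fun i => hV₀V (hz₀V i), h.indE.sub ht₀ fun i => hT₀T (ht₀V i), ?_⟩,
    fun h0 => ?_⟩
  · rw [hr]
    exact_mod_cast (by omega : q + (m + d) ≤ finrank ℚ T₀ + rb r * finrank (kL L) V₀)
  · have hTan : Tan PF' K (Pf' L (Fin.append z t)) = ⊥ := Submodule.finrank_eq_zero.1 h0
    have key : ∀ j, Fin.append z t j ∈ K := by
      intro j
      by_contra hj
      obtain ⟨v, hvT, hv⟩ := good_Tan (hK.good L hL n s z t j h.off hj)
      rw [hTan, Submodule.mem_bot] at hvT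
      rw [hvT] at hv
      exact zero_ne_one hv
    refine ⟨fun j => ?_, fun j => ?_⟩
    · have := key (Fin.castAdd s j)
      rwa [Fin.append_left] at this
    · have := key (Fin.natAdd n j)
      rwa [Fin.append_right] at this

theorem FailE.mono {m m' : ℕ} (hm : m ≤ m') {z : Fin n → ℂ} {t : Fin s → ℂ}
    (h : FailE L r F A B n s m' z t) : FailE L r F A B n s m z t :=
  ⟨h.off, h.indP, h.indE, le_trans (by gcongr) h.rk⟩

/-- points of the field outside of the spaces -/
def FillP (F : IntermediateField ℚ ℂ) (A : Submodule (kL L) ℂ) : Prop :=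
  ∀ X : Submodule (kL L) ℂ, FiniteDimensional (kL L) X → ∃ x ∈ F, x ∉ X ⊔ A ∧ x ∉ L.lattice

/-- exponents of the field outside of the spaces -/
def FillE (F : IntermediateField ℚ ℂ) (B : Submodule ℚ ℂ) : Prop :=
  ∀ X : Submodule ℚ ℂ, FiniteDimensional ℚ X → ∃ x ∈ F, x ∉ X ⊔ B

theorem mem_cl_of_mem {x : ℂ} (hx : x ∈ F) (S : Set ℂ) : x ∈ (MK F).closure S := by
  rw [← mem_clo_iff]
  exact fun δ hδ _ => hδ x hx

/-- adding a point of the field -/
theorem FailE.succP (hA : FillP F A) {z : Fin n → ℂ} {t : Fin s → ℂ}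
    (h : FailE L r F A B n s m z t) : ∃ z' : Fin (n + 1) → ℂ, FailE L r F A B (n + 1) s m z' t := by
  have hf : FiniteDimensional (kL L) (Submodule.span (kL L) (range z)) :=
    FiniteDimensional.span_of_finite (kL L) (finite_range z)
  obtain ⟨x, hr1, hr2, hr3⟩ := hA (Submodule.span (kL L) (range z)) hf
  refine ⟨Fin.snoc z x, ?_, ?_, h.indE, ?_⟩
  · intro i
    refine Fin.lastCases ?_ (fun i => ?_) i
    · rw [Fin.snoc_last]; exact hr3
    · rw [Fin.snoc_castSucc]; exact h.off i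
  · intro a ha h0
    rw [Fin.sum_univ_castSucc] at h0
    simp only [Fin.snoc_castSucc, Fin.snoc_last] at h0
    have h1 : ∑ i : Fin n, a i.castSucc * z i ∈ Submodule.span (kL L) (range z) := by
      rw [sum_K (fun i : Fin n => a i.castSucc) (fun i => ha _)]
      exact sum_mem fun i _ => Submodule.smul_mem _ _ (Submodule.subset_span ⟨i, rfl⟩)
    have h2 : (⟨a (Fin.last n), ha _⟩ : kL L) • x ∈ Submodule.span (kL L) (range z) ⊔ A := by
      change a (Fin.last n) * x ∈ _
      have h3 := sub_mem (Submodule.mem_sup_right (S := Submodule.span (kL L) (range z)) h0)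
        (Submodule.mem_sup_left (T := A) h1)
      rwa [add_sub_cancel_left] at h3
    have h3 : a (Fin.last n) = 0 := congrArg Subtype.val (mem_span_snoc hr2 h2)
    rw [h3, zero_mul, add_zero] at h0
    have h4 := h.indP (fun i => a i.castSucc) (fun i => ha _) h0
    funext i
    refine Fin.lastCases ?_ (fun i => ?_) i
    · exact h3
    · exact congrFun h4 i
  · obtain ⟨Y, hY1, hY2⟩ : ∃ Y : Set ℂ, EB L r (Fin.snoc z x : Fin (n + 1) → ℂ) ⊆ insert x (EB L r z ∪ Y) ∧
        Y.encard ≤ rb r := by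
      cases r
      · refine ⟨{℘[L] x}, ?_, by simp [rb]⟩
        rintro y (⟨i, rfl⟩ | ⟨i, rfl⟩)
        · refine Fin.lastCases ?_ (fun i => ?_) i
          · rw [Fin.snoc_last]; exact Or.inl rfl
          · rw [Fin.snoc_castSucc]; exact Or.inr (Or.inl (Or.inl ⟨i, rfl⟩))
        · refine Fin.lastCases ?_ (fun i => ?_) i
          · beta_reduce; rw [Fin.snoc_last]; exact Or.inr (Or.inr rfl)
          · beta_reduce; rw [Fin.snoc_castSucc]; exact Or.inr (Or.inl (Or.inr ⟨i, rfl⟩))
      · refine ⟨{zt L x, ℘[L] x}, ?_, ?_⟩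
        · rintro y (⟨i, rfl⟩ | ⟨i, rfl⟩ | ⟨i, rfl⟩)
          · refine Fin.lastCases ?_ (fun i => ?_) i
            · rw [Fin.snoc_last]; exact Or.inl rfl
            · rw [Fin.snoc_castSucc]; exact Or.inr (Or.inl (Or.inl ⟨i, rfl⟩))
          · refine Fin.lastCases ?_ (fun i => ?_) i
            · beta_reduce; rw [Fin.snoc_last]; exact Or.inr (Or.inr (Or.inl rfl))
            · beta_reduce; rw [Fin.snoc_castSucc]; exact Or.inr (Or.inl (Or.inr (Or.inl ⟨i, rfl⟩)))
          · refine Fin.lastCases ?_ (fun i => ?_) i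
            · beta_reduce; rw [Fin.snoc_last]; exact Or.inr (Or.inr (Or.inr rfl))
            · beta_reduce; rw [Fin.snoc_castSucc]; exact Or.inr (Or.inl (Or.inr (Or.inr ⟨i, rfl⟩)))
        · refine (Set.encard_insert_le _ _).trans ?_
          rw [Set.encard_singleton]
          norm_num [rb]
    have h1 : ET t ∪ EB L r (Fin.snoc z x : Fin (n + 1) → ℂ) ⊆ (MK F).closure ((ET t ∪ EB L r z) ∪ Y) := by
      rintro y (hy | hy)
      · exact subset_cl _ (Or.inl (Or.inl hy))
      · rcases hY1 hy with rfl | hy | hy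
        · exact mem_cl_of_mem hr1 _
        · exact subset_cl _ (Or.inl (Or.inr hy))
        · exact subset_cl _ (Or.inr hy)
    calc (MK F).eRk (ET t ∪ EB L r (Fin.snoc z x : Fin (n + 1) → ℂ)) + m
        ≤ ((MK F).eRk (ET t ∪ EB L r z) + (rb r : ℕ)) + m := by
          gcongr
          refine (rk_le_of_subset_cl h1).trans (((MK _).eRk_union_le_eRk_add_encard _ _).trans ?_)
          gcongr
      _ = ((MK F).eRk (ET t ∪ EB L r z) + m) + (rb r : ℕ) := by ring
      _ ≤ ((s + rb r * n : ℕ) : ℕ∞) + (rb r : ℕ) := by gcongr; exact h.rk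
      _ = ((s + rb r * (n + 1) : ℕ) : ℕ∞) := by push_cast; ring

/-- adding an exponent of the field -/
theorem FailE.succE (hB : FillE F B) {z : Fin n → ℂ} {t : Fin s → ℂ}
    (h : FailE L r F A B n s m z t) : ∃ t' : Fin (s + 1) → ℂ, FailE L r F A B n (s + 1) m z t' := by
  have hf : FiniteDimensional ℚ (Submodule.span ℚ (range t)) :=
    FiniteDimensional.span_of_finite ℚ (finite_range t)
  obtain ⟨x, hr1, hr2⟩ := hB (Submodule.span ℚ (range t)) hf
  refine ⟨Fin.snoc t x, h.off, h.indP, ?_, ?_⟩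
  · intro a h0
    rw [Fin.sum_univ_castSucc] at h0
    simp only [Fin.snoc_castSucc, Fin.snoc_last] at h0
    have h1 : ∑ i : Fin s, a i.castSucc • t i ∈ Submodule.span ℚ (range t) :=
      sum_mem fun i _ => Submodule.smul_mem _ _ (Submodule.subset_span ⟨i, rfl⟩)
    have h2 : a (Fin.last s) • x ∈ Submodule.span ℚ (range t) ⊔ B := by
      have h3 := sub_mem (Submodule.mem_sup_right (S := Submodule.span ℚ (range t)) h0)
        (Submodule.mem_sup_left (T := B) h1)
      rwa [add_sub_cancel_left] at h3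
    have h3 : a (Fin.last s) = 0 := mem_span_snoc hr2 h2
    rw [h3, zero_smul, add_zero] at h0
    have h4 := h.indE (fun i => a i.castSucc) h0
    funext i
    refine Fin.lastCases ?_ (fun i => ?_) i
    · exact h3
    · exact congrFun h4 i
  · have h1 : ET (Fin.snoc t x : Fin (s + 1) → ℂ) ∪ EB L r z ⊆
        (MK F).closure (insert (Complex.exp x) (ET t ∪ EB L r z)) := by
      rintro y ((⟨i, rfl⟩ | ⟨i, rfl⟩) | hy)
      · refine Fin.lastCases ?_ (fun i => ?_) i
        · rw [Fin.snoc_last]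
          exact mem_cl_of_mem hr1 _
        · rw [Fin.snoc_castSucc]
          exact subset_cl _ (mem_insert_of_mem _ (Or.inl (Or.inl ⟨i, rfl⟩)))
      · refine Fin.lastCases ?_ (fun i => ?_) i
        · beta_reduce
          rw [Fin.snoc_last]
          exact subset_cl _ (mem_insert _ _)
        · beta_reduce
          rw [Fin.snoc_castSucc]
          exact subset_cl _ (mem_insert_of_mem _ (Or.inl (Or.inr ⟨i, rfl⟩)))
      · exact subset_cl _ (mem_insert_of_mem _ (Or.inr hy))
    calc (MK F).eRk (ET (Fin.snoc t x : Fin (s + 1) → ℂ) ∪ EB L r z) + m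
        ≤ ((MK F).eRk (ET t ∪ EB L r z) + 1) + m := by
          gcongr
          exact (rk_le_of_subset_cl h1).trans ((MK _).eRk_insert_le_add_one _ _)
      _ = ((MK F).eRk (ET t ∪ EB L r z) + m) + 1 := by ring
      _ ≤ ((s + rb r * n : ℕ) : ℕ∞) + 1 := by gcongr; exact h.rk
      _ = (((s + 1) + rb r * n : ℕ) : ℕ∞) := by push_cast; ring

theorem FailE.extend (hA : FillP F A) (hB : FillE F B) {n₀ s₀ m : ℕ}
    (hn : n₀ ≤ n) (hs : s₀ ≤ s) (h : ∃ (z : Fin n₀ → ℂ) (t : Fin s₀ → ℂ), FailE L r F A B n₀ s₀ m z t) :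
    ∃ (z : Fin n → ℂ) (t : Fin s → ℂ), FailE L r F A B n s m z t := by
  have h1 : ∃ (z : Fin n → ℂ) (t : Fin s₀ → ℂ), FailE L r F A B n s₀ m z t := by
    induction n, hn using Nat.le_induction with
    | base => exact h
    | succ n _ ih =>
      obtain ⟨z, t, hz⟩ := ih
      obtain ⟨z', hz'⟩ := hz.succP hA
      exact ⟨z', t, hz'⟩
  induction s, hs using Nat.le_induction with
  | base => exact h1
  | succ s _ ih =>
    obtain ⟨z, t, hz⟩ := ih
    obtain ⟨t', hz'⟩ := hz.succE hB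
    exact ⟨z, t', hz'⟩

/-- adding arbitrary points and exponents -/
theorem FailE.append {a b : ℕ} {z : Fin n → ℂ} {t : Fin s → ℂ}
    (h : FailE L r F A B n s (m + (b + a)) z t) {x : Fin b → ℂ} {y : Fin a → ℂ}
    (hx : ∀ i, x i ∉ L.lattice) (hP : IndP L A (Fin.append z x)) (hE : IndE B (Fin.append t y)) :
    FailE L r F A B (n + b) (s + a) m (Fin.append z x) (Fin.append t y) := by
  refine ⟨fun i => ?_, hP, hE, ?_⟩
  · refine Fin.addCases (fun i => ?_) (fun j => ?_) i
    · rw [Fin.append_left]; exact h.off i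
    · rw [Fin.append_right]; exact hx j
  · have e : ET (Fin.append t y) ∪ EB L r (Fin.append z x) =
        (ET t ∪ EB L r z) ∪ (ET y ∪ EB L r x) := by
      rw [ET_append, EB_append]
      ext w
      simp only [mem_union]
      tauto
    rw [e]
    have h1 := (MK F).eRk_union_le_eRk_add_encard (ET t ∪ EB L r z) (ET y ∪ EB L r x)
    have h2 : (ET y ∪ EB L r x).encard ≤ ((2 * a + (rb r + 1) * b : ℕ) : ℕ∞) := by
      refine (encard_union_le _ _).trans ?_
      rw [Nat.cast_add]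
      exact add_le_add (encard_ET y) (encard_EB r x)
    have h3 := h.rk
    calc (MK F).eRk ((ET t ∪ EB L r z) ∪ (ET y ∪ EB L r x)) + m
        ≤ ((MK F).eRk (ET t ∪ EB L r z) + ((2 * a + (rb r + 1) * b : ℕ) : ℕ∞)) + m := by
          gcongr
          exact h1.trans (add_le_add le_rfl h2)
      _ = ((MK F).eRk (ET t ∪ EB L r z) + (m + (b + a) : ℕ)) + (a + rb r * b : ℕ) := by
          have e1 : ((2 * a + (rb r + 1) * b : ℕ) : ℕ∞) + m = ((m + (b + a) : ℕ) : ℕ∞) +
              ((a + rb r * b : ℕ) : ℕ∞) := by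
            rw [← Nat.cast_add, ← Nat.cast_add]
            congr 1
            ring
          rw [add_assoc, e1, ← add_assoc]
      _ ≤ ((s + rb r * n : ℕ) : ℕ∞) + (a + rb r * b : ℕ) := by gcongr
      _ = (((s + a) + rb r * (n + b) : ℕ) : ℕ∞) := by
          rw [← Nat.cast_add]
          congr 1
          ring

/-- generic points and exponents -/
theorem FailE.generic {a b : ℕ} {z : Fin n → ℂ} {t : Fin s → ℂ}
    (h : FailE L r F A B n s (m + (b + a)) z t) (hL : L ∈ LK K) (hAK : ∀ x ∈ A, x ∈ K)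
    (hBK : ∀ x ∈ B, x ∈ K) (hz : ∀ i, z i ∈ K) (ht : ∀ i, t i ∈ K) {w : Fin (b + a) → ℂ}
    (hw : w ∈ Gen K (b + a)) :
    FailE L r F A B (n + b) (s + a) m (Fin.append z fun i => w (Fin.castAdd a i))
      (Fin.append t fun i => w (Fin.natAdd b i)) := by
  have hkK : ∀ x ∈ kL L, x ∈ K := fun x hx => kL_mem hL hx
  have hqK : ∀ q : ℚ, (q : ℂ) ∈ K := fun q => SubfieldClass.ratCast_mem K q
  refine h.append (fun i hi => ?_) ?_ ?_
  · have h1 := hw (Pi.single (Fin.castAdd a i) 1) (fun j => by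
      by_cases hj : j = Fin.castAdd a i
      · subst hj; rw [Pi.single_eq_same]; exact K.one_mem
      · rw [Pi.single_eq_of_ne hj]; exact K.zero_mem) (by
      rw [Finset.sum_eq_single (Fin.castAdd a i)]
      · rw [Pi.single_eq_same, one_mul]
        exact lat_mem hL hi
      · intro j _ hj
        rw [Pi.single_eq_of_ne hj, zero_mul]
      · intro h; exact absurd (Finset.mem_univ _) h)
    have h2 := congrFun h1 (Fin.castAdd a i)
    rw [Pi.single_eq_same] at h2
    exact one_ne_zero h2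
  · intro e he h0
    rw [Fin.sum_univ_add] at h0
    simp only [Fin.append_left, Fin.append_right] at h0
    have h1 := hw (Fin.append (fun j : Fin b => e (Fin.natAdd n j)) (fun _ : Fin a => 0))
      (fun j => by
        refine Fin.addCases (fun j => ?_) (fun j => ?_) j
        · rw [Fin.append_left]; exact hkK _ (he _)
        · rw [Fin.append_right]; exact K.zero_mem) (by
      rw [Fin.sum_univ_add]
      simp only [Fin.append_left, Fin.append_right, zero_mul, Finset.sum_const_zero, add_zero]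
      have h2 := K.sub_mem (hAK _ h0) (K.sum_mem fun i (_ : i ∈ Finset.univ) =>
        K.mul_mem (hkK _ (he (Fin.castAdd b i))) (hz i))
      rwa [add_sub_cancel_left] at h2)
    have h2 : ∀ j : Fin b, e (Fin.natAdd n j) = 0 := by
      intro j
      have := congrFun h1 (Fin.castAdd a j)
      rwa [Fin.append_left] at this
    simp only [h2, zero_mul, Finset.sum_const_zero, add_zero] at h0
    have h3 := h.indP (fun i => e (Fin.castAdd b i)) (fun i => he _) h0
    funext i
    refine Fin.addCases (fun i => ?_) (fun j => ?_) i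
    · exact congrFun h3 i
    · exact h2 j
  · intro e h0
    rw [Fin.sum_univ_add] at h0
    simp only [Fin.append_left, Fin.append_right] at h0
    have h1 := hw (Fin.append (fun _ : Fin b => 0) (fun j : Fin a => (e (Fin.natAdd s j) : ℂ)))
      (fun j => by
        refine Fin.addCases (fun j => ?_) (fun j => ?_) j
        · rw [Fin.append_left]; exact K.zero_mem
        · rw [Fin.append_right]; exact hqK _) (by
      rw [Fin.sum_univ_add]
      simp only [Fin.append_left, Fin.append_right, zero_mul, Finset.sum_const_zero, zero_add]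
      have h2 := K.sub_mem (hBK _ h0) (K.sum_mem fun i (_ : i ∈ Finset.univ) =>
        show e (Fin.castAdd a i) • t i ∈ K by
          rw [Rat.smul_def]
          exact K.mul_mem (hqK _) (ht i))
      rw [add_sub_cancel_left] at h2
      simp only [Rat.smul_def] at h2
      exact h2)
    have h2 : ∀ j : Fin a, e (Fin.natAdd s j) = 0 := by
      intro j
      have := congrFun h1 (Fin.natAdd b j)
      rw [Fin.append_right, Pi.zero_apply] at this
      exact_mod_cast this
    simp only [h2, zero_smul, Finset.sum_const_zero, add_zero] at h0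
    have h3 := h.indE (fun i => e (Fin.castAdd a i)) h0
    funext i
    refine Fin.addCases (fun i => ?_) (fun j => ?_) i
    · exact congrFun h3 i
    · exact h2 j

end Pool.Agent.H445.RE
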