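import Pool.Agent.H445.RE.B

/-!
# The dimension formula over a countable field, with independence modulo countable spaces
-/

set_option autoImplicit false

open Set Module MvPolynomial
open Pool.Agent.TH813.Rel (DF MK subset_cl rk_le_of_subset_cl cl_of_base exists_derF)
open Pool.Agent.Y685
open Pool.Agent.Y776 (ET ET_finite)
open Pool.Agent.W245.EB Pool.Agent.TH813.Ell H667R3
open scoped PeriodPair NNReal ENNReal

noncomputable section

namespace Pool.Agent.H445.RE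

variable {L : PeriodPair} {n s m : ℕ} {r : Bool}

/-- the set of the failures -/
def SE (L : PeriodPair) (r : Bool) (F : IntermediateField ℚ ℂ) (A : Submodule (kL L) ℂ) (B : Submodule ℚ ℂ)
    (n s m : ℕ) : Set (Fin (n + s) → ℂ) :=
  {w | FailE L r F A B n s m (fun i => w (Fin.castAdd s i)) (fun i => w (Fin.natAdd n i))}

variable {F : IntermediateField ℚ ℂ} {A : Submodule (kL L) ℂ} {B : Submodule ℚ ℂ}

theorem mem_SE {w : Fin (n + s) → ℂ} : w ∈ SE L r F A B n s m ↔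
    FailE L r F A B n s m (fun i => w (Fin.castAdd s i)) (fun i => w (Fin.natAdd n i)) := Iff.rfl

theorem append_mem_SE {z : Fin n → ℂ} {t : Fin s → ℂ} : Fin.append z t ∈ SE L r F A B n s m ↔
    FailE L r F A B n s m z t := by
  rw [mem_SE]
  simp only [Fin.append_left, Fin.append_right]

theorem SE_nonempty : (SE L r F A B n s m).Nonempty ↔
    ∃ (z : Fin n → ℂ) (t : Fin s → ℂ), FailE L r F A B n s m z t := by
  constructor
  · rintro ⟨w, hw⟩
    exact ⟨_, _, hw⟩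
  · rintro ⟨z, t, h⟩
    exact ⟨_, append_mem_SE.2 h⟩

/-- the hypotheses on the base -/
structure BaseE (L : PeriodPair) (F : IntermediateField ℚ ℂ) (A : Submodule (kL L) ℂ) (B : Submodule ℚ ℂ) :
    Prop where
  cntF : (F : Set ℂ).Countable
  g2 : L.g₂ ∈ F
  g3 : L.g₃ ∈ F
  cntA : (A : Set ℂ).Countable
  cntB : (B : Set ℂ).Countable
  fillA : FillP F A
  fillB : FillE F B
  lat : ∀ x ∈ L.lattice, x ∈ A

/-- a closed field which contains everything -/
theorem BaseE.exists_field (h : BaseE L F A B) {S : Set ℂ} (hS : S.Countable) :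
    ∃ K : Subfield ℂ, Fld K ∧ L ∈ LK K ∧ F ≤ IFd K ∧ S ⊆ K ∧ (∀ x ∈ A, x ∈ K) ∧ ∀ x ∈ B, x ∈ K := by
  obtain ⟨K, hK, hKS⟩ := exists_Fld (S := {L.ω₁, L.ω₂} ∪ ((F : Set ℂ) ∪ (S ∪ ((A : Set ℂ) ∪ (B : Set ℂ)))))
    ((by simp : ({L.ω₁, L.ω₂} : Set ℂ).Countable).union
      (h.cntF.union (hS.union (h.cntA.union h.cntB))))
  exact ⟨K, hK, ⟨hKS (Or.inl (by simp)), hKS (Or.inl (by simp))⟩,
    fun x hx => hKS (Or.inr (Or.inl hx)), fun x hx => hKS (Or.inr (Or.inr (Or.inl hx))),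
    fun x hx => hKS (Or.inr (Or.inr (Or.inr (Or.inl hx)))),
    fun x hx => hKS (Or.inr (Or.inr (Or.inr (Or.inr hx))))⟩

/-- the admissible levels -/
def LevE (L : PeriodPair) (r : Bool) (F : IntermediateField ℚ ℂ) (A : Submodule (kL L) ℂ) (B : Submodule ℚ ℂ)
    (n s m : ℕ) : Set ℕ :=
  {d | ∃ b a : ℕ, b ≤ n ∧ a ≤ s ∧ b + a = d ∧ (SE L r F A B (n - b) (s - a) (m + d)).Nonempty}

theorem LevE_bdd : BddAbove (LevE L r F A B n s m) := by
  refine ⟨n + s, ?_⟩
  rintro d ⟨b, a, h1, h2, rfl, -⟩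
  exact add_le_add h1 h2

/-- the level of a failure -/
theorem FailE.level (hB : BaseE L F A B) {K : Subfield ℂ} (hK : Fld K) (hL : L ∈ LK K)
    (hFK : F ≤ IFd K) {w : Fin (n + s) → ℂ} (hw : w ∈ SE L r F A B n s m) :
    finrank ℂ (Tan PF' K (Pf' L w)) ∈ LevE L r F A B n s m ∧
      (finrank ℂ (Tan PF' K (Pf' L w)) = 0 → ∀ j, w j ∈ K) := by
  obtain ⟨⟨n₀, s₀, z₀, t₀, h1, h2, h3, h4⟩, h5⟩ := FailE.reduce (mem_SE.1 hw) hK hL hFK hB.g2 hB.g3
  rw [append_eta] at h3 h4 h5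
  constructor
  · refine ⟨min (finrank ℂ (Tan PF' K (Pf' L w))) (n - n₀),
      finrank ℂ (Tan PF' K (Pf' L w)) - min (finrank ℂ (Tan PF' K (Pf' L w))) (n - n₀), by omega,
      by omega, by omega, SE_nonempty.2 (FailE.extend hB.fillA hB.fillB ?_ ?_ ⟨z₀, t₀, h4⟩)⟩ <;> omega
  · intro h0
    obtain ⟨h6, h7⟩ := h5 h0
    intro j
    refine Fin.addCases (fun i => ?_) (fun j => ?_) j
    · exact h6 i
    · exact h7 j

theorem LevE_down (hB : BaseE L F A B) {d e : ℕ} (hed : e ≤ d) (hd : d ∈ LevE L r F A B n s m) :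
    e ∈ LevE L r F A B n s m := by
  obtain ⟨b, a, h1, h2, rfl, h3⟩ := hd
  obtain ⟨z, t, h4⟩ := SE_nonempty.1 h3
  refine ⟨min b e, e - min b e, by omega, by omega, by omega, SE_nonempty.2
    (FailE.extend hB.fillA hB.fillB (n₀ := n - b) (s₀ := s - a) (by omega) (by omega)
      ⟨z, t, h4.mono (by omega)⟩)⟩

theorem lowerE (hB : BaseE L F A B) {d : ℕ} (hd : d ∈ LevE L r F A B n s m) :
    ((2 * d : ℕ) : ℝ≥0∞) ≤ dimH (SE L r F A B n s m) := by
  obtain ⟨b, a, h1, h2, rfl, h3⟩ := hd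
  obtain ⟨n', rfl⟩ : ∃ n', n = n' + b := ⟨n - b, by omega⟩
  obtain ⟨s', rfl⟩ : ∃ s', s = s' + a := ⟨s - a, by omega⟩
  rw [Nat.add_sub_cancel, Nat.add_sub_cancel] at h3
  obtain ⟨z, t, h4⟩ := SE_nonempty.1 h3
  obtain ⟨K, hK, hL, -, hS, hAK, hBK⟩ := hB.exists_field (S := range z ∪ range t)
    ((countable_range z).union (countable_range t))
  have h5 : ∀ w ∈ Gen K (b + a), FailE L r F A B (n' + b) (s' + a) m
      (Fin.append z fun i => w (Fin.castAdd a i)) (Fin.append t fun i => w (Fin.natAdd b i)) :=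
    fun w hw => FailE.generic h4 hL hAK hBK (fun i => hS (Or.inl ⟨i, rfl⟩))
      (fun i => hS (Or.inr ⟨i, rfl⟩)) hw
  let σ : Fin (b + a) → Fin ((n' + b) + (s' + a)) := Fin.addCases
    (fun i => Fin.castAdd _ (Fin.natAdd n' i)) (fun i => Fin.natAdd _ (Fin.natAdd s' i))
  let π : (Fin ((n' + b) + (s' + a)) → ℂ) →L[ℂ] (Fin (b + a) → ℂ) :=
    ContinuousLinearMap.pi fun j => ContinuousLinearMap.proj (σ j)
  refine (dimH_Gen hK.cnt (b + a)).trans (le_trans (dimH_mono ?_)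
    (π.lipschitz.dimH_image_le (SE L r F A B (n' + b) (s' + a) m)))
  intro w hw
  refine ⟨Fin.append (Fin.append z fun i => w (Fin.castAdd a i))
    (Fin.append t fun i => w (Fin.natAdd b i)), append_mem_SE.2 (h5 w hw), ?_⟩
  funext j
  change Fin.append (Fin.append z fun i => w (Fin.castAdd a i))
    (Fin.append t fun i => w (Fin.natAdd b i)) (σ j) = w j
  refine Fin.addCases (fun i => ?_) (fun i => ?_) j
  · simp only [σ, Fin.addCases_left, Fin.append_left, Fin.append_right]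
  · simp only [σ, Fin.addCases_right, Fin.append_right]

/-- **The dimension formula** -/
theorem dimE (hB : BaseE L F A B) :
    dimH (SE L r F A B n s m) = (2 * sSup (LevE L r F A B n s m) : ℕ) := by
  apply le_antisymm
  · obtain ⟨K, hK, hL, hFK, -, -, -⟩ := hB.exists_field (S := ∅) Set.countable_empty
    refine (dimH_mono ?_).trans (dimH_Tan (P := PF' (n := n) (s := s)) (K := K) (Φ := Pf' L) hK.cnt
      (isOpen_Uf L) (fun x hx s₀ => Pf'_der L hx s₀) (sSup (LevE L r F A B n s m))).1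
    intro w hw
    exact ⟨(mem_SE.1 hw).off, le_csSup LevE_bdd (FailE.level hB hK hL hFK hw).1⟩
  · rcases Set.eq_empty_or_nonempty (LevE L r F A B n s m) with h | h
    · rw [h, csSup_empty]
      simp
    · exact lowerE hB (Nat.sSup_mem h LevE_bdd)

/-- **Countability** -/
theorem countableE (hB : BaseE L F A B) :
    (SE L r F A B n s m).Countable ↔ 1 ∉ LevE L r F A B n s m := by
  constructor
  · intro h h1
    have h2 := lowerE hB h1
    rw [h.dimH_zero] at h2
    norm_num at h2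
  · intro h
    obtain ⟨K, hK, hL, hFK, -, -, -⟩ := hB.exists_field (S := ∅) Set.countable_empty
    refine Set.Countable.mono ?_ (Set.countable_univ_pi fun _ : Fin (n + s) => hK.cnt)
    intro w hw j _
    obtain ⟨h1, h2⟩ := FailE.level hB hK hL hFK hw
    refine h2 ?_ j
    by_contra h0
    exact h (LevE_down hB (Nat.one_le_iff_ne_zero.2 h0) h1)

/-- the numbers of arbitrary points (lattice points only contribute themselves) -/
def EB' (L : PeriodPair) : Bool → {n : ℕ} → (Fin n → ℂ) → Set ℂ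
  | true, _, z => {x | ∃ i, x = z i ∨ (z i ∉ L.lattice ∧ (x = zt L (z i) ∨ x = ℘[L] (z i)))}
  | false, _, z => {x | ∃ i, x = z i ∨ (z i ∉ L.lattice ∧ x = ℘[L] (z i))}

theorem EB'_eq {z : Fin n → ℂ} (h : ∀ i, z i ∉ L.lattice) : EB' L r z = EB L r z := by
  cases r
  · ext x
    constructor
    · rintro ⟨i, rfl | ⟨-, rfl⟩⟩
      · exact Or.inl ⟨i, rfl⟩
      · exact Or.inr ⟨i, rfl⟩
    · rintro (⟨i, rfl⟩ | ⟨i, rfl⟩)
      · exact ⟨i, Or.inl rfl⟩
      · exact ⟨i, Or.inr ⟨h i, rfl⟩⟩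
  · ext x
    constructor
    · rintro ⟨i, rfl | ⟨-, rfl | rfl⟩⟩
      · exact Or.inl ⟨i, rfl⟩
      · exact Or.inr (Or.inl ⟨i, rfl⟩)
      · exact Or.inr (Or.inr ⟨i, rfl⟩)
    · rintro (⟨i, rfl⟩ | ⟨i, rfl⟩ | ⟨i, rfl⟩)
      · exact ⟨i, Or.inl rfl⟩
      · exact ⟨i, Or.inr ⟨h i, Or.inl rfl⟩⟩
      · exact ⟨i, Or.inr ⟨h i, Or.inr rfl⟩⟩

theorem EB'_comp (z : Fin n → ℂ) {n' : ℕ} (σ : Fin n' → Fin n) : EB' L r (fun i => z (σ i)) ⊆ EB' L r z := by
  cases r
  · rintro x ⟨i, h⟩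
    exact ⟨σ i, h⟩
  · rintro x ⟨i, h⟩
    exact ⟨σ i, h⟩

/-- the tuples which violate the inequality by at least `m` -/
def VE (L : PeriodPair) (r : Bool) (F : IntermediateField ℚ ℂ) (A : Submodule (kL L) ℂ) (B : Submodule ℚ ℂ)
    (n s m : ℕ) : Set (Fin (n + s) → ℂ) :=
  {w | (MK F).eRk (ET (fun i => w (Fin.natAdd n i)) ∪ EB' L r (fun i => w (Fin.castAdd s i))) + m ≤
      ((dimQ B (fun i => w (Fin.natAdd n i)) + rb r * dimQ A (fun i => w (Fin.castAdd s i)) : ℕ) : ℕ∞)}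

theorem mem_VE {w : Fin (n + s) → ℂ} : w ∈ VE L r F A B n s m ↔
    (MK F).eRk (ET (fun i => w (Fin.natAdd n i)) ∪ EB' L r (fun i => w (Fin.castAdd s i))) + m ≤
      ((dimQ B (fun i => w (Fin.natAdd n i)) + rb r * dimQ A (fun i => w (Fin.castAdd s i)) : ℕ) : ℕ∞) := Iff.rfl

theorem SE_subset_VE : SE L r F A B n s m ⊆ VE L r F A B n s m := by
  intro w hw
  have h := mem_SE.1 hw
  rw [mem_VE, dimQ_of_li (IndP_iff.1 h.indP), dimQ_of_li (IndE_iff.1 h.indE), EB'_eq h.off]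
  exact h.rk

/-- the indices of the affine maps -/
structure AffE (L : PeriodPair) (A : Submodule (kL L) ℂ) (B : Submodule ℚ ℂ) (n s : ℕ) where
  n₁ : ℕ
  s₁ : ℕ
  hn : n₁ ≤ n
  hs : s₁ ≤ s
  M : Fin n → Fin n₁ → kL L
  a : Fin n → A
  N : Fin s → Fin s₁ → ℚ
  b : Fin s → B

/-- the affine maps -/
def AffE.map (q : AffE L A B n s) (w : Fin (q.n₁ + q.s₁) → ℂ) : Fin (n + s) → ℂ :=
  Fin.append (fun i => ∑ j, (q.M i j : ℂ) * w (Fin.castAdd q.s₁ j) + q.a i)
    (fun i => ∑ j, (q.N i j : ℂ) * w (Fin.natAdd q.n₁ j) + q.b i)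

theorem AffE.lipschitz (q : AffE L A B n s) : ∃ K : ℝ≥0, LipschitzWith K q.map := by
  let lin : (Fin (q.n₁ + q.s₁) → ℂ) →ₗ[ℂ] (Fin (n + s) → ℂ) :=
    { toFun := fun w => Fin.append (fun i => ∑ j, (q.M i j : ℂ) * w (Fin.castAdd q.s₁ j))
        (fun i => ∑ j, (q.N i j : ℂ) * w (Fin.natAdd q.n₁ j))
      map_add' := fun x y => by
        funext i
        refine Fin.addCases (fun i => ?_) (fun i => ?_) i
        · simp only [Fin.append_left, Pi.add_apply, mul_add, Finset.sum_add_distrib]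
        · simp only [Fin.append_right, Pi.add_apply, mul_add, Finset.sum_add_distrib]
      map_smul' := fun r x => by
        funext i
        refine Fin.addCases (fun i => ?_) (fun i => ?_) i
        · simp only [Fin.append_left, Pi.smul_apply, smul_eq_mul, RingHom.id_apply, Finset.mul_sum]
          exact Finset.sum_congr rfl fun j _ => by ring
        · simp only [Fin.append_right, Pi.smul_apply, smul_eq_mul, RingHom.id_apply, Finset.mul_sum]
          exact Finset.sum_congr rfl fun j _ => by ring }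
  let lin' : (Fin (q.n₁ + q.s₁) → ℂ) →L[ℂ] (Fin (n + s) → ℂ) := LinearMap.toContinuousLinearMap lin
  let v : Fin (n + s) → ℂ := Fin.append (fun i => (q.a i : ℂ)) (fun i => (q.b i : ℂ))
  have h1 : q.map = fun w => lin' w + v := by
    funext w i
    refine Fin.addCases (fun i => ?_) (fun i => ?_) i
    · simp only [AffE.map, lin', lin, v, LinearMap.coe_toContinuousLinearMap', LinearMap.coe_mk,
        AddHom.coe_mk, Pi.add_apply, Fin.append_left]
    · simp only [AffE.map, lin', lin, v, LinearMap.coe_toContinuousLinearMap', LinearMap.coe_mk,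
        AddHom.coe_mk, Pi.add_apply, Fin.append_right]
  rw [h1]
  exact ⟨_, lin'.lipschitz.add (LipschitzWith.const v)⟩

theorem countable_AffE (hB : BaseE L F A B) : Countable (AffE L A B n s) := by
  have h1 : Countable (kL L) := (countable_kL L).to_subtype
  have h2 : Countable A := hB.cntA.to_subtype
  have h3 : Countable B := hB.cntB.to_subtype
  let f : AffE L A B n s → (Σ n₁ : ℕ, Σ s₁ : ℕ, ((Fin n → Fin n₁ → kL L) × (Fin n → A)) ×
      ((Fin s → Fin s₁ → ℚ) × (Fin s → B))) :=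
    fun q => ⟨q.n₁, q.s₁, ((q.M, q.a), (q.N, q.b))⟩
  have hf : Function.Injective f := by
    rintro ⟨n₁, s₁, hn, hs, M, a, N, b⟩ ⟨n₁', s₁', hn', hs', M', a', N', b'⟩ h
    simp only [f, Sigma.mk.injEq] at h
    obtain ⟨rfl, h⟩ := h
    rw [heq_eq_eq, Sigma.mk.injEq] at h
    obtain ⟨rfl, h⟩ := h
    rw [heq_eq_eq] at h
    simp only [Prod.mk.injEq] at h
    obtain ⟨⟨rfl, rfl⟩, rfl, rfl⟩ := h
    rfl
  exact hf.countable

/-- reduction to independent tuples -/
theorem VE_sub (hB : BaseE L F A B) {w : Fin (n + s) → ℂ} (hw : w ∈ VE L r F A B n s m) :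
    ∃ (q : AffE L A B n s) (u : Fin (q.n₁ + q.s₁) → ℂ), u ∈ SE L r F A B q.n₁ q.s₁ m ∧
      q.map u = w := by
  have h2 := hw
  set z : Fin n → ℂ := fun i => w (Fin.castAdd s i) with hz
  set t : Fin s → ℂ := fun i => w (Fin.natAdd n i) with ht
  change (MK F).eRk (ET t ∪ EB' L r z) + m ≤ _ at h2
  obtain ⟨σ, hσ, hσ'⟩ := exists_sub A z
  obtain ⟨τ, hτ, hτ'⟩ := exists_sub B t
  have hoff : ∀ i, z (σ i) ∉ L.lattice := by
    intro i hi
    have h3 : A.mkQ (z (σ i)) = 0 := by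
      rw [Submodule.mkQ_apply, Submodule.Quotient.mk_eq_zero]
      exact hB.lat _ hi
    exact hσ.ne_zero i h3
  choose M a hM using hσ'
  choose N b hN using hτ'
  refine ⟨⟨dimQ A z, dimQ B t, dimQ_le A z, dimQ_le B t, M, a, N, b⟩,
    Fin.append (fun i => z (σ i)) (fun i => t (τ i)), append_mem_SE.2 ⟨hoff,
      IndP_iff.2 hσ, IndE_iff.2 hτ, ?_⟩, ?_⟩
  · rw [← EB'_eq hoff]
    exact le_trans (add_le_add ((MK _).eRk_mono
      (union_subset_union (ET_comp_subset t τ) (EB'_comp z σ))) le_rfl) h2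
  · funext i
    refine Fin.addCases (fun i => ?_) (fun i => ?_) i
    · simp only [AffE.map, Fin.append_left]
      exact (hM i).symm
    · simp only [AffE.map, Fin.append_right]
      rw [show w (Fin.natAdd n i) = t i from rfl, hN i]
      congr 1

theorem VE_nonempty (hB : BaseE L F A B) : (VE L r F A B n s m).Nonempty ↔
    (SE L r F A B n s m).Nonempty := by
  constructor
  · rintro ⟨w, hw⟩
    obtain ⟨q, u, hu, -⟩ := VE_sub hB hw
    exact SE_nonempty.2 (FailE.extend hB.fillA hB.fillB q.hn q.hs ⟨_, _, mem_SE.1 hu⟩)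
  · rintro ⟨w, hw⟩
    exact ⟨w, SE_subset_VE hw⟩

theorem LevE_mono (hB : BaseE L F A B) {n₁ s₁ : ℕ} (hn : n₁ ≤ n) (hs : s₁ ≤ s) :
    LevE L r F A B n₁ s₁ m ⊆ LevE L r F A B n s m := by
  rintro d ⟨b, a, h1, h2, h3, h4⟩
  obtain ⟨z, t, h5⟩ := SE_nonempty.1 h4
  exact ⟨b, a, by omega, by omega, h3, SE_nonempty.2 (FailE.extend hB.fillA hB.fillB
    (n₀ := n₁ - b) (s₀ := s₁ - a) (by omega) (by omega) ⟨z, t, h5⟩)⟩

/-- the levels in terms of all tuples -/
theorem mem_LevE (hB : BaseE L F A B) {d : ℕ} : d ∈ LevE L r F A B n s m ↔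
    ∃ b a : ℕ, b ≤ n ∧ a ≤ s ∧ b + a = d ∧ (VE L r F A B (n - b) (s - a) (m + d)).Nonempty := by
  simp only [VE_nonempty hB]
  rfl

/-- more points and exponents -/
theorem VE_extend (hB : BaseE L F A B) {n' s' : ℕ} (hn : n ≤ n') (hs : s ≤ s')
    (h : (VE L r F A B n s m).Nonempty) : (VE L r F A B n' s' m).Nonempty := by
  rw [VE_nonempty hB] at h ⊢
  exact SE_nonempty.2 (FailE.extend hB.fillA hB.fillB hn hs (SE_nonempty.1 h))

theorem VE_mono {m' : ℕ} (hm : m ≤ m') : VE L r F A B n s m' ⊆ VE L r F A B n s m := by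
  intro w hw
  rw [mem_VE] at hw ⊢
  refine le_trans ?_ hw
  gcongr

theorem lowerVE (hB : BaseE L F A B) {d : ℕ} (hd : d ∈ LevE L r F A B n s m) :
    ((2 * d : ℕ) : ℝ≥0∞) ≤ dimH (VE L r F A B n s m) :=
  (lowerE hB hd).trans (dimH_mono SE_subset_VE)

/-- **The dimension formula for all tuples** -/
theorem dimVE (hB : BaseE L F A B) :
    dimH (VE L r F A B n s m) = (2 * sSup (LevE L r F A B n s m) : ℕ) := by
  apply le_antisymm
  · have := countable_AffE (n := n) (s := s) hB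
    have h1 : VE L r F A B n s m ⊆ ⋃ q : AffE L A B n s, q.map '' SE L r F A B q.n₁ q.s₁ m := by
      intro w hw
      obtain ⟨q, u, hu, rfl⟩ := VE_sub hB hw
      exact mem_iUnion.2 ⟨q, u, hu, rfl⟩
    refine (dimH_mono h1).trans ?_
    rw [dimH_iUnion]
    refine iSup_le fun q => ?_
    obtain ⟨K, hK⟩ := q.lipschitz
    refine (hK.dimH_image_le _).trans ?_
    rw [dimE hB]
    have h2 : sSup (LevE L r F A B q.n₁ q.s₁ m) ≤ sSup (LevE L r F A B n s m) := by
      rcases Set.eq_empty_or_nonempty (LevE L r F A B q.n₁ q.s₁ m) with h | h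
      · rw [h, csSup_empty]
        exact Nat.zero_le _
      · exact csSup_le_csSup LevE_bdd h (LevE_mono hB q.hn q.hs)
    exact_mod_cast Nat.mul_le_mul_left 2 h2
  · rw [← dimE hB]
    exact dimH_mono SE_subset_VE

theorem countableVE (hB : BaseE L F A B) :
    (VE L r F A B n s m).Countable ↔ 1 ∉ LevE L r F A B n s m := by
  rw [← countableE hB]
  constructor
  · intro h
    exact h.mono SE_subset_VE
  · intro h
    have := countable_AffE (n := n) (s := s) hB
    have h1 : VE L r F A B n s m ⊆ ⋃ q : AffE L A B n s, q.map '' SE L r F A B q.n₁ q.s₁ m := by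
      intro w hw
      obtain ⟨q, u, hu, rfl⟩ := VE_sub hB hw
      exact mem_iUnion.2 ⟨q, u, hu, rfl⟩
    refine (Set.countable_iUnion fun q => ?_).mono h1
    refine Set.Countable.image ?_ _
    rw [countableE hB]
    exact fun h2 => (countableE hB).1 h (LevE_mono hB q.hn q.hs h2)

/-- the trivial bound -/
theorem VE_bound (h : (VE L r F A B n s m).Nonempty) : m ≤ s + rb r * n := by
  obtain ⟨w, hw⟩ := h
  have h1 : (m : ℕ∞) ≤ ((dimQ B (fun i => w (Fin.natAdd n i)) +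
      rb r * dimQ A (fun i => w (Fin.castAdd s i)) : ℕ) : ℕ∞) := le_add_self.trans hw
  have h2 : m ≤ dimQ B (fun i => w (Fin.natAdd n i)) + rb r * dimQ A (fun i => w (Fin.castAdd s i)) := by
    exact_mod_cast h1
  have h3 := dimQ_le B (fun i => w (Fin.natAdd n i))
  have h4 := Nat.mul_le_mul_left (rb r) (dimQ_le A (fun i => w (Fin.castAdd s i)))
  omega

end Pool.Agent.H445.RE
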