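import Pool.Agent.H445.RE.C
import Pool.Agent.H445.EllF

/-!
# The logarithms of algebraic points
-/

set_option autoImplicit false

open Set Module MvPolynomial
open Pool.Agent.TH813.Rel (DF MK subset_cl rk_le_of_subset_cl cl_of_base exists_derF)
open Pool.Agent.Y685
open Pool.Agent.Y776 (ET ET_finite Tf lg)
open Pool.Agent.W245.EB Pool.Agent.TH813.Ell H667R3
open scoped PeriodPair NNReal ENNReal

noncomputable section

namespace Pool.Agent.H445.RE

variable {L : PeriodPair} {n s m : ℕ} {r : Bool}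

theorem trdeg_iff_F (F : IntermediateField ℚ ℂ) {S : Set ℂ} (m N : ℕ) :
    Algebra.trdeg F (IntermediateField.adjoin F S) + m ≤ (N : Cardinal) ↔ (MK F).eRk S + m ≤ (N : ℕ∞) := by
  have h2 : Cardinal.toENat (Algebra.trdeg F (IntermediateField.adjoin F S)) = (MK F).eRk S :=
    Pool.Agent.TH813.Rel.toENat_trdeg (k := F) _
  rw [← Cardinal.toENat_le_natCast, map_add, h2]
  simp

theorem alg_killed {x : ℂ} (hx : IsAlgebraic ℚ x) (δ : Derivation ℚ ℂ ℂ) : δ x = 0 := by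
  have h1 := alg_mem_cl hx (∅ : Set ℂ)
  rw [← mem_clo_iff] at h1
  refine h1 δ (fun y hy => ?_) (fun y hy => hy.elim)
  obtain ⟨q, rfl⟩ := IntermediateField.mem_bot.1 hy
  exact δ.map_algebraMap q

theorem alg_of_killed {x : ℂ} (hx : ∀ δ : Derivation ℚ ℂ ℂ, δ x = 0) : IsAlgebraic ℚ x := by
  apply alg_of_cl_empty alg_bot
  rw [← mem_clo_iff]
  exact fun δ _ _ => hx δ

theorem ell_log_iff (h2 : IsAlgebraic ℚ L.g₂) (h3 : IsAlgebraic ℚ L.g₃) {z : ℂ} :
    (z ∈ L.lattice ∨ IsAlgebraic ℚ (℘[L] z)) ↔ ∀ δ : Derivation ℚ ℂ ℂ, om L δ z = 0 := by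
  constructor
  · rintro (h | h) δ
    · exact om_of_mem L δ h
    · exact om_of_kill (alg_killed h δ)
  · intro h
    by_cases hz : z ∈ L.lattice
    · exact Or.inl hz
    · exact Or.inr (alg_of_killed fun δ => (wp_killed (alg_killed h2 δ) (alg_killed h3 δ) (h δ) hz).1)

/-- the logarithms of the algebraic points -/
def AL (L : PeriodPair) (h2 : IsAlgebraic ℚ L.g₂) (h3 : IsAlgebraic ℚ L.g₃) : Submodule (Pool.Agent.TH813.Ell.kL L) ℂ where
  carrier := {z | ∀ δ : Derivation ℚ ℂ ℂ, om L δ z = 0}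
  add_mem' := by
    intro u v hu hv δ
    rw [om_add L δ (alg_killed h2 δ) (alg_killed h3 δ), hu δ, hv δ, add_zero]
  zero_mem' := fun δ => om_zero δ
  smul_mem' := by
    rintro ⟨c, hc⟩ z hz δ
    obtain ⟨κ, hE⟩ := exists_eig L
    have e0 : (⟨c, hc⟩ : Pool.Agent.TH813.Ell.kL L) • z = c * z := rfl
    rw [e0, hE.om_mul δ (alg_killed h2 δ) (alg_killed h3 δ) c hc, hz δ, mul_zero]

theorem mem_AL {h2 : IsAlgebraic ℚ L.g₂} {h3 : IsAlgebraic ℚ L.g₃} {z : ℂ} :
    z ∈ AL L h2 h3 ↔ (z ∈ L.lattice ∨ IsAlgebraic ℚ (℘[L] z)) := (ell_log_iff h2 h3).symm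

theorem exp_alg_iff {t : ℂ} : IsAlgebraic ℚ (Complex.exp t) ↔ ∀ δ : Derivation ℚ ℂ ℂ, lg δ t = 0 := by
  constructor
  · intro h δ
    rw [lg, alg_killed h δ, zero_div]
  · intro h
    refine alg_of_killed fun δ => ?_
    have h1 := h δ
    rw [lg, div_eq_zero_iff] at h1
    exact h1.resolve_right (Complex.exp_ne_zero t)

/-- the logarithms of the algebraic numbers -/
def BL : Submodule ℚ ℂ where
  carrier := {t | ∀ δ : Derivation ℚ ℂ ℂ, lg δ t = 0}
  add_mem' := by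
    intro u v hu hv δ
    have := (Pool.Agent.Y776.lgL δ).map_add u v
    change lg δ (u + v) = lg δ u + lg δ v at this
    rw [this, hu δ, hv δ, add_zero]
  zero_mem' := fun δ => by
    have := (Pool.Agent.Y776.lgL δ).map_zero
    exact this
  smul_mem' := by
    intro q u hu δ
    have := (Pool.Agent.Y776.lgL δ).map_smul q u
    change lg δ (q • u) = q • lg δ u at this
    rw [this, hu δ, smul_zero]

theorem mem_BL {t : ℂ} : t ∈ BL ↔ IsAlgebraic ℚ (Complex.exp t) := exp_alg_iff.symm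

/-- the logarithms of the algebraic points are in every closed field -/
theorem AL_le {K : Subfield ℂ} (hK : Fld K) (hL : L ∈ LK K) {h2 : IsAlgebraic ℚ L.g₂} {h3 : IsAlgebraic ℚ L.g₃}
    {z : ℂ} (hz : z ∈ AL L h2 h3) : z ∈ K := by
  by_contra hK'
  have hzL : z ∉ L.lattice := fun h => hK' (lat_mem hL h)
  obtain ⟨D, hD, hne⟩ := Fld.moves_pt hK hL (z := fun _ : Fin 1 => z) (t := (![] : Fin 0 → ℂ)) (fun _ => hzL) hK'
  have h4 := (hD.2.1 0).1
  rw [hz D] at h4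
  exact hne h4.symm

theorem BL_le {K : Subfield ℂ} (hK : Fld K) (hL : L ∈ LK K) {t : ℂ} (ht : t ∈ BL) : t ∈ K := by
  by_contra hK'
  obtain ⟨D, hD, hne⟩ := Fld.moves_ex hK hL (z := (![] : Fin 0 → ℂ)) (t := fun _ : Fin 1 => t)
    (fun i => i.elim0) hK'
  have h4 := hD.2.2 0
  rw [Tf, ht D, sub_zero] at h4
  exact hne h4

/-- a sum with a space without algebraic elements -/
theorem fin_of (X A Q : Submodule ℚ ℂ) [FiniteDimensional ℚ X] (hQA : ∀ x ∈ Q, x ∈ A → x = 0) :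
    FiniteDimensional ℚ ((X ⊔ A) ⊓ Q : Submodule ℚ ℂ) := by
  let W : Submodule ℚ ℂ := (X ⊔ A) ⊓ Q
  have hX : FiniteDimensional ℚ (X.map A.mkQ) := inferInstance
  let f : W →ₗ[ℚ] (X.map A.mkQ) := LinearMap.codRestrict (X.map A.mkQ) (A.mkQ ∘ₗ W.subtype) (by
    rintro ⟨w, hw⟩
    obtain ⟨x, hx, a, ha, hxa⟩ := Submodule.mem_sup.1 hw.1
    refine ⟨x, hx, ?_⟩
    change A.mkQ x = A.mkQ w
    rw [← hxa, map_add]
    have : A.mkQ a = 0 := by
      rw [Submodule.mkQ_apply, Submodule.Quotient.mk_eq_zero]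
      exact ha
    rw [this, add_zero])
  have hf : Function.Injective f := by
    rw [injective_iff_map_eq_zero]
    rintro ⟨w, hw⟩ h0
    have h1 : A.mkQ w = 0 := congrArg Subtype.val h0
    rw [Submodule.mkQ_apply, Submodule.Quotient.mk_eq_zero] at h1
    exact Subtype.ext (hQA w hw.2 h1)
  exact FiniteDimensional.of_injective f hf

/-- the algebraic numbers -/
def Qb : Submodule ℚ ℂ := Subalgebra.toSubmodule (algebraicClosure ℚ ℂ).toSubalgebra

theorem mem_Qb {x : ℂ} : x ∈ Qb ↔ IsAlgebraic ℚ x := mem_algebraicClosure_iff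

theorem AL_alg {h2 : IsAlgebraic ℚ L.g₂} {h3 : IsAlgebraic ℚ L.g₃} {z : ℂ} (hz : IsAlgebraic ℚ z)
    (h : z ∈ AL L h2 h3) : z = 0 := by
  by_contra hz0
  have h8 := second_kind h2 h3 (m := 1) (fun _ => z) (fun _ => mem_AL.1 h) (by
    intro α _ hs
    rw [Fin.sum_univ_one] at hs
    funext i
    rw [Subsingleton.elim i 0]
    exact (mul_eq_zero.1 hs).resolve_right hz0) 0 1 isAlgebraic_zero isAlgebraic_one
    (Or.inr one_ne_zero) (fun _ => 1) (fun _ => isAlgebraic_one) (by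
    rw [Fin.sum_univ_one]
    simpa using hz)
  exact one_ne_zero (congrFun h8 0)

theorem BL_alg {t : ℂ} (ht : IsAlgebraic ℚ t) (h : t ∈ BL) : t = 0 := by
  by_contra ht0
  have h1 := one_le_rank alg_bot ht0 (S := {t, Complex.exp t}) (Or.inl rfl) (Or.inr rfl)
  have h2 : (MK (⊥ : IntermediateField ℚ ℂ)).eRk {t, Complex.exp t} = 0 := by
    rw [← nonpos_iff_eq_zero]
    refine (rk_le_of_subset_cl (T := ∅) ?_).trans (by simp)
    rintro x (rfl | rfl)
    · exact alg_mem_cl ht _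
    · exact alg_mem_cl (mem_BL.1 h) _
  rw [h2] at h1
  exact absurd h1 (by simp)

theorem base_AB {F : IntermediateField ℚ ℂ} {h2 : IsAlgebraic ℚ L.g₂} {h3 : IsAlgebraic ℚ L.g₃}
    (hF : (F : Set ℂ).Countable) (hal : ∀ x, IsAlgebraic ℚ x → x ∈ F) : BaseE L F (AL L h2 h3) BL := by
  obtain ⟨K, hK, hKS⟩ := exists_Fld (S := {L.ω₁, L.ω₂}) (by simp)
  have hL : L ∈ LK K := ⟨hKS (by simp), hKS (by simp)⟩
  refine ⟨hF, hal _ h2, hal _ h3, hK.cnt.mono fun x hx => AL_le hK hL hx, hK.cnt.mono fun x hx => BL_le hK hL hx,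
    ?_, ?_, fun x hx => mem_AL.2 (Or.inl hx)⟩
  · intro X hX
    have h1 : Module.Finite ℚ (X.restrictScalars ℚ) := Module.Finite.trans (R := ℚ) (Pool.Agent.TH813.Ell.kL L) X
    have h4 := fin_of (X.restrictScalars ℚ) ((AL L h2 h3).restrictScalars ℚ) Qb
      (fun x hx hA => AL_alg (h2 := h2) (h3 := h3) (mem_Qb.1 hx) hA)
    obtain ⟨x, hx1, hx2⟩ := exists_real_alg ((X.restrictScalars ℚ ⊔ (AL L h2 h3).restrictScalars ℚ) ⊓ Qb)
    refine ⟨x, hal _ hx1, fun hcon => hx2 ⟨?_, mem_Qb.2 hx1⟩, fun hcon => hx2 ⟨?_, mem_Qb.2 hx1⟩⟩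
    · obtain ⟨u, hu, v, hv, huv⟩ := Submodule.mem_sup.1 hcon
      rw [← huv]
      exact Submodule.add_mem_sup hu hv
    · exact Submodule.mem_sup_right (show (x : ℂ) ∈ (AL L h2 h3).restrictScalars ℚ from
      (mem_AL (h2 := h2) (h3 := h3)).2 (Or.inl hcon))
  · intro X hX
    have h4 := fin_of X BL Qb (fun x hx hB => BL_alg (mem_Qb.1 hx) hB)
    obtain ⟨x, hx1, hx2⟩ := exists_real_alg ((X ⊔ BL) ⊓ Qb)
    exact ⟨x, hal _ hx1, fun hcon => hx2 ⟨hcon, mem_Qb.2 hx1⟩⟩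

/-- the algebraic closure of a countable set of numbers is countable -/
theorem countable_alg {S : Set ℂ} (hS : S.Countable) :
    {x : ℂ | IsAlgebraic (IntermediateField.adjoin ℚ S) x}.Countable := by
  obtain ⟨K, hK, hKS⟩ := exists_Fld (S := S) hS
  refine hK.cnt.mono fun x hx => ?_
  have h1 : IntermediateField.adjoin ℚ S ≤ IFd K := IntermediateField.adjoin_le_iff.2 hKS
  let _ : Algebra (IntermediateField.adjoin ℚ S) (IFd K) := (IntermediateField.inclusion h1).toRingHom.toAlgebra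
  have : IsScalarTower (IntermediateField.adjoin ℚ S) (IFd K) ℂ := IsScalarTower.of_algebraMap_eq (fun _ => rfl)
  have hx' : IsAlgebraic (IntermediateField.adjoin ℚ S) x := hx
  have h2 : IsAlgebraic (IFd K) x :=
    hx'.extendScalars (algebraMap (IntermediateField.adjoin ℚ S) (IFd K)).injective
  exact hK.alg x h2

end Pool.Agent.H445.RE
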